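import Pool.Agent.H34.T2e.Step

/-!
# The fibre Remez step for the slopes
-/

open MeasureTheory Set
open scoped ComplexConjugate Real
open Pool.Agent.H2.T2 Pool.Agent.H34.T2e

namespace Pool.Agent.H56.T2e

/-- The fibre step: slopes with small virial difference on a dense set of triangles are close. -/
def Fib (α β : ℂ) : Prop := ∃ C : ℕ, ∀ (e h : ℝ) (z₀ : ℂ) (G : Set (ℂ × ℝ)) (m : ℂ → ℝ)
  (m' : ℂ → ℂ) (M : ℝ) (M' : ℂ), 0 < e → e ≤ 1 / 2 → 0 < h → h ≤ 1 → MeasurableSet G →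
  (∀ x ∈ G, x.1 ∈ sq z₀ h ∧ 0 ≤ x.2 ∧ x.2 < 2 * π) → ENNReal.ofReal (e * h ^ 2) ≤ volume G →
  (∀ x ∈ G, |Lp α β x.2 (m x.1) (m' x.1) - Lp α β x.2 M M'| ≤ 2 * h / e) →
  ∃ G' : Set (ℂ × ℝ), MeasurableSet G' ∧ G' ⊆ G ∧ ENNReal.ofReal (e / 2 * h ^ 2) ≤ volume G' ∧
    ∀ x ∈ G', ‖m' x.1 - M'‖ ≤ h / e ^ C

theorem volume_removed {e h : ℝ} {z₀ : ℂ} {G : Set (ℂ × ℝ)} (hh : 0 < h)
    (hG : MeasurableSet G) (hs : ∀ x ∈ G, x.1 ∈ sq z₀ h) :
    volume (G ∩ {x | ¬ ENNReal.ofReal (e ^ 2) ≤ volume {t : ℝ | (x.1, t) ∈ G}})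
      ≤ ENNReal.ofReal (e ^ 2 * h ^ 2) := by
  have hmeas : Measurable fun z : ℂ => volume {t : ℝ | (z, t) ∈ G} :=
    measurable_measure_prodMk_left hG
  have hB : MeasurableSet {x : ℂ × ℝ | ¬ ENNReal.ofReal (e ^ 2) ≤ volume {t : ℝ | (x.1, t) ∈ G}} :=
    (measurableSet_le measurable_const (hmeas.comp measurable_fst)).compl
  have hD : MeasurableSet (G ∩ {x : ℂ × ℝ | ¬ ENNReal.ofReal (e ^ 2)
      ≤ volume {t : ℝ | (x.1, t) ∈ G}}) := hG.inter hB
  rw [Measure.volume_eq_prod, Measure.prod_apply hD]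
  have hpt : ∀ z : ℂ, volume (Prod.mk z ⁻¹' (G ∩ {x : ℂ × ℝ | ¬ ENNReal.ofReal (e ^ 2)
      ≤ volume {t : ℝ | (x.1, t) ∈ G}})) ≤ (sq z₀ h).indicator (fun _ => ENNReal.ofReal (e ^ 2)) z := by
    intro z
    by_cases hz : z ∈ sq z₀ h
    · rw [indicator_of_mem hz]
      by_cases hv : ENNReal.ofReal (e ^ 2) ≤ volume {t : ℝ | (z, t) ∈ G}
      · have : Prod.mk z ⁻¹' (G ∩ {x : ℂ × ℝ | ¬ ENNReal.ofReal (e ^ 2)
            ≤ volume {t : ℝ | (x.1, t) ∈ G}}) = ∅ := by
          ext t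
          simp only [mem_preimage, mem_inter_iff, mem_ofPred_eq, mem_empty_iff_false, iff_false,
            not_and, not_not]
          intro _
          exact hv
        rw [this, measure_empty]
        exact bot_le
      · refine (measure_mono ?_).trans (not_le.mp hv).le
        intro t ht
        exact ht.1
    · rw [indicator_of_notMem hz]
      have : Prod.mk z ⁻¹' (G ∩ {x : ℂ × ℝ | ¬ ENNReal.ofReal (e ^ 2)
          ≤ volume {t : ℝ | (x.1, t) ∈ G}}) = ∅ := by
        ext t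
        simp only [mem_preimage, mem_inter_iff, mem_empty_iff_false, iff_false, not_and]
        intro h1
        exact absurd (hs _ h1) hz
      rw [this, measure_empty]
  refine (lintegral_mono hpt).trans ?_
  rw [lintegral_indicator (measurableSet_sq z₀ h), setLIntegral_const, volume_sq z₀ hh.le,
    ← ENNReal.ofReal_mul (by positivity)]

theorem lp_sub (α β : ℂ) (t m M : ℝ) (m' M' : ℂ) :
    Lp α β t m m' - Lp α β t M M'
      = ((((α * conj β).re * (m - M) : ℝ) : ℂ) + 0 * ec t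
        + -(α * β * conj (m' - M')) * ec (2 * t) + 0 * ec (3 * t)).re := by
  unfold Pool.Agent.H34.T2e.Lp
  have h1 : (conj (α * β) * m' * ec (-2 * t)).re - (conj (α * β) * M' * ec (-2 * t)).re
      = (α * β * conj (m' - M') * ec (2 * t)).re := by
    rw [← Complex.sub_re, ← Complex.conj_re]
    congr 1
    have : conj (ec (-2 * t)) = ec (2 * t) := by
      rw [conj_ec]
      congr 1
      ring
    simp only [map_sub, map_mul, this, Complex.conj_conj]
    ring
  have h2 : ((((α * conj β).re * (m - M) : ℝ) : ℂ) + 0 * ec t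
        + -(α * β * conj (m' - M')) * ec (2 * t) + 0 * ec (3 * t)).re
      = (α * conj β).re * (m - M) - (α * β * conj (m' - M') * ec (2 * t)).re := by
    simp only [zero_mul, add_zero, neg_mul, Complex.add_re, Complex.neg_re, Complex.ofReal_re]
    ring
  rw [h2, ← h1]
  ring

theorem fib_of {α β : ℂ} (hJ : (α * conj β).im ≠ 0) (hT : RemezT) : Fib α β := by
  obtain ⟨C, hC⟩ := hT
  have hα : α ≠ 0 := by
    rintro rfl
    simp at hJ
  have hβ : β ≠ 0 := by
    rintro rfl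
    simp at hJ
  have hab : 0 < ‖α * β‖ := norm_pos_iff.mpr (mul_ne_zero hα hβ)
  obtain ⟨k, hk⟩ := pow_unbounded_of_one_lt (2 / ‖α * β‖) (one_lt_two)
  refine ⟨2 * C + 1 + k, ?_⟩
  intro e h z₀ G m m' M M' he he2 hh hh1 hG hs hvol hL
  have hmeas : Measurable fun z : ℂ => volume {t : ℝ | (z, t) ∈ G} :=
    measurable_measure_prodMk_left hG
  set B : Set (ℂ × ℝ) := {x | ENNReal.ofReal (e ^ 2) ≤ volume {t : ℝ | (x.1, t) ∈ G}} with hB
  have hBm : MeasurableSet B := measurableSet_le measurable_const (hmeas.comp measurable_fst)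
  refine ⟨G ∩ B, hG.inter hBm, inter_subset_left, ?_, ?_⟩
  · have h1 := volume_removed (e := e) hh hG (fun x hx => (hs x hx).1)
    have h2 : volume G ≤ volume (G ∩ B) + ENNReal.ofReal (e ^ 2 * h ^ 2) := by
      have : G = (G ∩ B) ∪ (G ∩ {x | ¬ ENNReal.ofReal (e ^ 2) ≤ volume {t : ℝ | (x.1, t) ∈ G}}) := by
        rw [← inter_union_distrib_left]
        have : B ∪ {x | ¬ ENNReal.ofReal (e ^ 2) ≤ volume {t : ℝ | (x.1, t) ∈ G}} = univ := by
          ext x
          simp only [hB, mem_union, mem_ofPred_eq, mem_univ, iff_true]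
          exact em _
        rw [this, inter_univ]
      calc volume G ≤ volume (G ∩ B)
          + volume (G ∩ {x | ¬ ENNReal.ofReal (e ^ 2) ≤ volume {t : ℝ | (x.1, t) ∈ G}}) := by
            conv_lhs => rw [this]
            exact measure_union_le _ _
        _ ≤ _ := by gcongr
    have h3 : ENNReal.ofReal (e / 2 * h ^ 2) + ENNReal.ofReal (e ^ 2 * h ^ 2)
        ≤ volume (G ∩ B) + ENNReal.ofReal (e ^ 2 * h ^ 2) := by
      rw [← ENNReal.ofReal_add (by positivity) (by positivity)]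
      refine le_trans (ENNReal.ofReal_le_ofReal ?_) (hvol.trans h2)
      have : 0 < h ^ 2 := by positivity
      nlinarith [mul_pos he this]
    exact (ENNReal.add_le_add_iff_right ENNReal.ofReal_ne_top).mp h3
  · rintro x ⟨hxG, hxB⟩
    set c : Fin 4 → ℂ := ![(((α * conj β).re * (m x.1 - M) : ℝ) : ℂ), 0,
      -(α * β * conj (m' x.1 - M')), 0] with hc
    have hSm : MeasurableSet {t : ℝ | (x.1, t) ∈ G} := measurable_prodMk_left hG
    have key := hC (e ^ 2) (2 * h / e) {t : ℝ | (x.1, t) ∈ G} c (by positivity)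
      (by nlinarith) (by positivity) hSm (fun t ht => ⟨(hs _ ht).2.1, (hs _ ht).2.2⟩) hxB
      (by
        intro t ht
        have := hL (x.1, t) ht
        rw [lp_sub] at this
        simpa [hc] using this) 2 (by decide)
    have hc2 : ‖c 2‖ = ‖α * β‖ * ‖m' x.1 - M'‖ := by
      have : c 2 = -(α * β * conj (m' x.1 - M')) := by simp [hc]
      rw [this, norm_neg, norm_mul, norm_conj']
    rw [hc2] at key
    have he0 : 0 < e ^ (2 * C + 1 + k) := by positivity
    have hek : (2 : ℝ) ^ k * e ^ k ≤ 1 := by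
      rw [← mul_pow]
      exact pow_le_one₀ (by positivity) (by linarith)
    have h2ab : 2 ≤ 2 ^ k * ‖α * β‖ := by
      rw [div_lt_iff₀ hab] at hk
      exact hk.le
    rw [le_div_iff₀ he0]
    have hkey2 : ‖α * β‖ * ‖m' x.1 - M'‖ * (e ^ (2 * C) * e) ≤ 2 * h := by
      have e1 : 2 * h / e / (e ^ 2) ^ C = 2 * h / (e ^ (2 * C) * e) := by
        rw [div_div, ← pow_mul, mul_comm e]
      rw [e1, le_div_iff₀ (by positivity)] at key
      exact key
    have hn : 0 ≤ ‖m' x.1 - M'‖ := norm_nonneg _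
    have hpow : e ^ (2 * C + 1 + k) = e ^ (2 * C) * e * e ^ k := by
      rw [pow_add, pow_succ]
    rw [hpow]
    have ha : 2 * (‖m' x.1 - M'‖ * (e ^ (2 * C) * e * e ^ k)) ≤ 2 * h := by
      calc 2 * (‖m' x.1 - M'‖ * (e ^ (2 * C) * e * e ^ k))
          ≤ (2 ^ k * ‖α * β‖) * (‖m' x.1 - M'‖ * (e ^ (2 * C) * e * e ^ k)) := by gcongr
        _ = (2 ^ k * e ^ k) * (‖α * β‖ * ‖m' x.1 - M'‖ * (e ^ (2 * C) * e)) := by ring
        _ ≤ 1 * (2 * h) := by gcongr
        _ = 2 * h := by ring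
    linarith

end Pool.Agent.H56.T2e
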